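import Pool.Agent.H73.CBD.Stmts

/-!
# Board CBD, row HHL: the derivative of `H` is locally Hölder continuous
-/

set_option autoImplicit false

open Set Filter Topology

namespace Pool.CBD

/-- the bracket in the derivative of `H` -/
private noncomputable def hhlD (z v : V) : ℝ :=
  2 * ((starRingEnd ℂ) (z 0) * v 0 + (starRingEnd ℂ) (z 1) * v 1).re + (Phi z * P z v).re

private theorem hhl_lin (z v : V) :
    |2 * ((starRingEnd ℂ) (z 0) * v 0 + (starRingEnd ℂ) (z 1) * v 1).re| ≤ 4 * ‖z‖ * ‖v‖ := by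
  have h1 : |((starRingEnd ℂ) (z 0) * v 0 + (starRingEnd ℂ) (z 1) * v 1).re| ≤
      ‖z‖ * ‖v‖ + ‖z‖ * ‖v‖ := by
    refine (Complex.abs_re_le_norm _).trans ((norm_add_le _ _).trans ?_)
    rw [norm_mul, norm_mul, RCLike.norm_conj, RCLike.norm_conj]
    exact add_le_add
      (mul_le_mul (norm_le_pi_norm z 0) (norm_le_pi_norm v 0) (norm_nonneg _) (norm_nonneg _))
      (mul_le_mul (norm_le_pi_norm z 1) (norm_le_pi_norm v 1) (norm_nonneg _) (norm_nonneg _))
  rw [abs_mul, abs_two]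
  linarith

private theorem hhl_P (hALH : ALHStmt) (c : ℂ) (z v : V) :
    |(c * P z v).re| ≤ ‖c‖ * (2 * ‖z‖ * ‖v‖) := by
  refine (Complex.abs_re_le_norm _).trans ?_
  rw [norm_mul]
  exact mul_le_mul_of_nonneg_left (hALH.2.2.2.1 z v) (norm_nonneg _)

private theorem hhl_D (hALH : ALHStmt) {C0 : ℝ} {z : V} (hC : ‖Phi z‖ ≤ C0) (v : V) :
    |hhlD z v| ≤ (4 + 2 * C0) * ‖z‖ * ‖v‖ := by
  have h1 := hhl_lin z v
  have h2 := hhl_P hALH (Phi z) z v
  have h3 : ‖Phi z‖ * (2 * ‖z‖ * ‖v‖) ≤ C0 * (2 * ‖z‖ * ‖v‖) :=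
    mul_le_mul_of_nonneg_right hC (by positivity)
  have h4 : |hhlD z v| ≤ _ + _ := abs_add_le _ _
  linarith

private theorem hhl_le (α M x : ℝ) (hα : 0 < α) (hα1 : α ≤ 1) (hM : 1 ≤ M) (hx : 0 ≤ x)
    (hxM : x ≤ M) : x ≤ M * x ^ α := by
  rcases le_or_gt x 1 with h | h
  · have h1 : x ^ (1 : ℝ) ≤ x ^ α := by
      rcases hx.eq_or_lt with h0 | h0
      · rw [← h0, Real.zero_rpow one_ne_zero, Real.zero_rpow hα.ne']
      · exact Real.rpow_le_rpow_of_exponent_ge h0 h hα1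
    rw [Real.rpow_one] at h1
    have h2 : 0 ≤ x ^ α := Real.rpow_nonneg hx _
    nlinarith
  · have h1 : (1 : ℝ) ≤ x ^ α := Real.one_le_rpow h.le hα.le
    nlinarith

private theorem hhl_exp {a b : ℝ} (ha : a ≤ Real.log 2) (hb : b ≤ Real.log 2) :
    |Real.exp a - Real.exp b| ≤ 2 * |a - b| := by
  have key : ∀ x y : ℝ, x ≤ Real.log 2 → y ≤ x → Real.exp x - Real.exp y ≤ 2 * (x - y) := by
    intro x y hx hyx
    have h1 : Real.exp x ≤ 2 := by
      rw [← Real.exp_log (by norm_num : (0 : ℝ) < 2)]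
      exact Real.exp_le_exp.mpr hx
    have h2 : 1 - (x - y) ≤ Real.exp (-(x - y)) := by
      have := Real.add_one_le_exp (-(x - y))
      linarith
    have h3 : Real.exp y = Real.exp x * Real.exp (-(x - y)) := by
      rw [← Real.exp_add]
      congr 1
      ring
    have h4 := Real.exp_pos x
    have h5 : Real.exp x * (1 - (x - y)) ≤ Real.exp y := by
      rw [h3]
      exact mul_le_mul_of_nonneg_left h2 h4.le
    have h6 : Real.exp x * (x - y) ≤ 2 * (x - y) :=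
      mul_le_mul_of_nonneg_right h1 (by linarith)
    linarith
  rcases le_total b a with h | h
  · rw [abs_of_nonneg (sub_nonneg.mpr (Real.exp_le_exp.mpr h)), abs_of_nonneg (sub_nonneg.mpr h)]
    exact key a b ha h
  · rw [abs_sub_comm, abs_sub_comm a b, abs_of_nonneg (sub_nonneg.mpr (Real.exp_le_exp.mpr h)),
      abs_of_nonneg (sub_nonneg.mpr h)]
    exact key b a hb h

theorem HHL_thm (hHFD : HFDStmt) (hSLP : SLPStmt) (hHLP : HLPStmt) (hSUM : SUMStmt)
    (hFEQ : FEQStmt) (hNRM : NRMStmt) (hALH : ALHStmt) : HHLStmt := by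
  obtain ⟨K1, hK1, hS⟩ := hSLP
  obtain ⟨α, K2, hα, hα1, hK2, hPhi⟩ := hHLP
  obtain ⟨C0', hC0'⟩ := hSUM.2
  obtain ⟨C0, hC0, hC0n⟩ : ∃ C0 : ℝ, (∀ z : V, z ≠ 0 → ‖Phi z‖ ≤ C0) ∧ 0 ≤ C0 :=
    ⟨max C0' 0, fun z hz => ((hC0' z hz).1).trans (le_max_left _ _), le_max_right _ _⟩
  have hexp : ∀ z : V, z ≠ 0 → Real.exp (S z) ≤ 2 := by
    intro z hz
    rw [← Real.exp_log (by norm_num : (0 : ℝ) < 2)]
    exact Real.exp_le_exp.mpr (hFEQ z hz).2.2.1
  have hder : ∀ z v : V, fderiv ℝ H z v = Real.exp (S z) * hhlD z v := fun z v => (hHFD z).2 v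
  have hbd : ∀ z : V, ‖fderiv ℝ H z‖ ≤ 2 * (4 + 2 * C0) * ‖z‖ := by
    intro z
    apply ContinuousLinearMap.opNorm_le_bound _ (by positivity)
    intro v
    rw [Real.norm_eq_abs, hder, abs_mul, Real.abs_exp]
    by_cases hz : z = 0
    · subst hz
      have h1 : hhlD 0 v = 0 := by
        unfold hhlD P
        simp
      rw [h1]
      simp
    · have h1 := hhl_D hALH (hC0 z hz) v
      have h2 : Real.exp (S z) * |hhlD z v| ≤ 2 * ((4 + 2 * C0) * ‖z‖ * ‖v‖) :=
        mul_le_mul (hexp z hz) h1 (abs_nonneg _) (by norm_num)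
      linarith
  refine ⟨α, hα, ?_⟩
  intro R
  set M : ℝ := 2 * |R| + 1 with hM
  have hM1 : 1 ≤ M := by
    have := abs_nonneg R
    linarith
  set C : ℝ := 4 * (2 * (4 + 2 * C0)) * M + (4 * K1 * (4 + 2 * C0) + 8 + 4 * C0) * M +
    8 * K2 * M with hCdef
  have key : ∀ z w : V, ‖z‖ ≤ R → ‖w‖ ≤ ‖z‖ →
      ‖fderiv ℝ H z - fderiv ℝ H w‖ ≤ C * ‖z - w‖ ^ α := by
    intro z w hz hwz
    have hd0 : 0 ≤ ‖z - w‖ := norm_nonneg _
    have hz0 : 0 ≤ ‖z‖ := norm_nonneg _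
    have hdM : ‖z - w‖ ≤ M := by
      have h1 := norm_sub_le z w
      have h2 := le_abs_self R
      linarith
    have hzM : ‖z‖ ≤ M := by
      have h2 := le_abs_self R
      have := abs_nonneg R
      linarith
    have hdα := hhl_le α M ‖z - w‖ hα hα1 hM1 hd0 hdM
    have hdα0 : 0 ≤ ‖z - w‖ ^ α := Real.rpow_nonneg hd0 _
    rcases le_or_gt (‖z‖ / 2) ‖z - w‖ with hcase | hcase
    · have h1 := norm_sub_le (fderiv ℝ H z) (fderiv ℝ H w)
      have h2 := hbd z
      have h3 := hbd w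
      have h4 : 2 * (4 + 2 * C0) * ‖w‖ ≤ 2 * (4 + 2 * C0) * ‖z‖ :=
        mul_le_mul_of_nonneg_left hwz (by positivity)
      have h5 : 2 * (4 + 2 * C0) * ‖z‖ ≤ 2 * (4 + 2 * C0) * (2 * ‖z - w‖) :=
        mul_le_mul_of_nonneg_left (by linarith) (by positivity)
      have h6 : 4 * (2 * (4 + 2 * C0)) * ‖z - w‖ ≤
          4 * (2 * (4 + 2 * C0)) * (M * ‖z - w‖ ^ α) :=
        mul_le_mul_of_nonneg_left hdα (by positivity)
      have h7 : 0 ≤ ((4 * K1 * (4 + 2 * C0) + 8 + 4 * C0) * M + 8 * K2 * M) * ‖z - w‖ ^ α := by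
        have : 0 ≤ M := by linarith
        positivity
      have h8 : C * ‖z - w‖ ^ α = 4 * (2 * (4 + 2 * C0)) * (M * ‖z - w‖ ^ α) +
          ((4 * K1 * (4 + 2 * C0) + 8 + 4 * C0) * M + 8 * K2 * M) * ‖z - w‖ ^ α := by
        rw [hCdef]
        ring
      rw [h8]
      linarith
    · have hzpos : 0 < ‖z‖ := by
        by_contra hcon
        have : ‖z‖ = 0 := le_antisymm (not_lt.mp hcon) hz0
        rw [this] at hcase
        linarith
      have hzne : z ≠ 0 := norm_pos_iff.mp hzpos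
      have hwpos : 0 < ‖w‖ := by
        have h1 := norm_sub_norm_le z w
        linarith
      have hwne : w ≠ 0 := norm_pos_iff.mp hwpos
      have hδ := hNRM.1 z w hzne hwne
      have hSz := (hFEQ z hzne).2.2.1
      have hSw := (hFEQ w hwne).2.2.1
      have hMα0 : 0 ≤ M * ‖z - w‖ ^ α := mul_nonneg (by linarith) hdα0
      -- the Hölder term
      have hpow : ‖nrm z - nrm w‖ ^ α * ‖z‖ ≤ 2 * (M * ‖z - w‖ ^ α) := by
        have h1 : ‖nrm z - nrm w‖ ^ α ≤ (2 * ‖z - w‖ / ‖z‖) ^ α :=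
          Real.rpow_le_rpow (norm_nonneg _) hδ hα.le
        have h2 : (2 * ‖z - w‖ / ‖z‖) ^ α * ‖z‖ ^ α = (2 * ‖z - w‖) ^ α := by
          rw [← Real.mul_rpow (by positivity) hz0, div_mul_cancel₀ _ hzpos.ne']
        have h3 := hhl_le α M ‖z‖ hα hα1 hM1 hz0 hzM
        have h4 : (2 * ‖z - w‖) ^ α = 2 ^ α * ‖z - w‖ ^ α :=
          Real.mul_rpow (by norm_num) hd0
        have h5 : (2 : ℝ) ^ α ≤ 2 := by
          calc (2 : ℝ) ^ α ≤ 2 ^ (1 : ℝ) :=
                Real.rpow_le_rpow_of_exponent_le (by norm_num) hα1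
            _ = 2 := Real.rpow_one 2
        have h6 : 0 ≤ (2 * ‖z - w‖ / ‖z‖) ^ α := Real.rpow_nonneg (by positivity) _
        calc ‖nrm z - nrm w‖ ^ α * ‖z‖ ≤ (2 * ‖z - w‖ / ‖z‖) ^ α * (M * ‖z‖ ^ α) :=
              mul_le_mul h1 h3 hz0 h6
          _ = M * ((2 * ‖z - w‖ / ‖z‖) ^ α * ‖z‖ ^ α) := by ring
          _ = M * (2 ^ α * ‖z - w‖ ^ α) := by rw [h2, h4]
          _ ≤ M * (2 * ‖z - w‖ ^ α) := by
              apply mul_le_mul_of_nonneg_left _ (by linarith)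
              exact mul_le_mul_of_nonneg_right h5 hdα0
          _ = 2 * (M * ‖z - w‖ ^ α) := by ring
      apply ContinuousLinearMap.opNorm_le_bound _
      · apply mul_nonneg _ hdα0
        rw [hCdef]
        have : 0 ≤ M := by linarith
        positivity
      intro v
      have hv : 0 ≤ ‖v‖ := norm_nonneg v
      rw [ContinuousLinearMap.sub_apply, Real.norm_eq_abs, hder, hder]
      have hsplit : Real.exp (S z) * hhlD z v - Real.exp (S w) * hhlD w v =
          (Real.exp (S z) - Real.exp (S w)) * hhlD z v +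
            Real.exp (S w) * (hhlD z v - hhlD w v) := by ring
      rw [hsplit]
      have hA : |(Real.exp (S z) - Real.exp (S w)) * hhlD z v| ≤
          4 * K1 * (4 + 2 * C0) * ‖z - w‖ * ‖v‖ := by
        rw [abs_mul]
        have h1 := hhl_exp hSz hSw
        have h2 := hS z w hzne hwne
        have h3 := hhl_D hALH (hC0 z hzne) v
        have h4 : |Real.exp (S z) - Real.exp (S w)| ≤ 2 * (K1 * (2 * ‖z - w‖ / ‖z‖)) := by
          have h5 : K1 * ‖nrm z - nrm w‖ ≤ K1 * (2 * ‖z - w‖ / ‖z‖) :=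
            mul_le_mul_of_nonneg_left hδ hK1.le
          linarith
        calc |Real.exp (S z) - Real.exp (S w)| * |hhlD z v| ≤
              2 * (K1 * (2 * ‖z - w‖ / ‖z‖)) * ((4 + 2 * C0) * ‖z‖ * ‖v‖) :=
              mul_le_mul h4 h3 (abs_nonneg _) (by positivity)
          _ = 4 * K1 * (4 + 2 * C0) * ‖z - w‖ * ‖v‖ := by
              field_simp
              ring
      have hdiff : hhlD z v - hhlD w v =
          2 * ((starRingEnd ℂ) ((z - w) 0) * v 0 + (starRingEnd ℂ) ((z - w) 1) * v 1).re +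
            ((Phi z * P (z - w) v).re + ((Phi z - Phi w) * P w v).re) := by
        have h1 : (Phi z * P (z - w) v).re + ((Phi z - Phi w) * P w v).re =
            (Phi z * P z v).re - (Phi w * P w v).re := by
          rw [← Complex.add_re, ← Complex.sub_re]
          congr 1
          unfold P
          simp only [Pi.sub_apply]
          ring
        have h2 : ((starRingEnd ℂ) ((z - w) 0) * v 0 + (starRingEnd ℂ) ((z - w) 1) * v 1).re =
            ((starRingEnd ℂ) (z 0) * v 0 + (starRingEnd ℂ) (z 1) * v 1).re -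
              ((starRingEnd ℂ) (w 0) * v 0 + (starRingEnd ℂ) (w 1) * v 1).re := by
          rw [← Complex.sub_re]
          congr 1
          simp only [Pi.sub_apply, map_sub]
          ring
        rw [h1, h2]
        unfold hhlD
        ring
      have hB : |hhlD z v - hhlD w v| ≤ (4 + 2 * C0) * ‖z - w‖ * ‖v‖ +
          4 * K2 * (M * ‖z - w‖ ^ α) * ‖v‖ := by
        rw [hdiff]
        have h1 := hhl_lin (z - w) v
        have h2 := hhl_P hALH (Phi z) (z - w) v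
        have h3 := hhl_P hALH (Phi z - Phi w) w v
        have h4 : ‖Phi z‖ * (2 * ‖z - w‖ * ‖v‖) ≤ C0 * (2 * ‖z - w‖ * ‖v‖) :=
          mul_le_mul_of_nonneg_right (hC0 z hzne) (by positivity)
        have h5 : ‖Phi z - Phi w‖ * (2 * ‖w‖ * ‖v‖) ≤ 4 * K2 * (M * ‖z - w‖ ^ α) * ‖v‖ := by
          have h6 := hPhi z w hzne hwne
          have h7 : 2 * ‖w‖ * ‖v‖ ≤ 2 * ‖z‖ * ‖v‖ :=
            mul_le_mul_of_nonneg_right (by linarith) hv
          calc ‖Phi z - Phi w‖ * (2 * ‖w‖ * ‖v‖) ≤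
                (K2 * ‖nrm z - nrm w‖ ^ α) * (2 * ‖z‖ * ‖v‖) :=
                mul_le_mul h6 h7 (by positivity)
                  (mul_nonneg hK2.le (Real.rpow_nonneg (norm_nonneg _) _))
            _ = 2 * K2 * ‖v‖ * (‖nrm z - nrm w‖ ^ α * ‖z‖) := by ring
            _ ≤ 2 * K2 * ‖v‖ * (2 * (M * ‖z - w‖ ^ α)) :=
                mul_le_mul_of_nonneg_left hpow (by positivity)
            _ = 4 * K2 * (M * ‖z - w‖ ^ α) * ‖v‖ := by ring
        have h8 := abs_add_le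
          (2 * ((starRingEnd ℂ) ((z - w) 0) * v 0 + (starRingEnd ℂ) ((z - w) 1) * v 1).re)
          ((Phi z * P (z - w) v).re + ((Phi z - Phi w) * P w v).re)
        have h9 := abs_add_le (Phi z * P (z - w) v).re ((Phi z - Phi w) * P w v).re
        linarith
      have hC : |Real.exp (S w) * (hhlD z v - hhlD w v)| ≤
          2 * ((4 + 2 * C0) * ‖z - w‖ * ‖v‖ + 4 * K2 * (M * ‖z - w‖ ^ α) * ‖v‖) := by
        rw [abs_mul, Real.abs_exp]
        exact mul_le_mul (hexp w hwne) hB (abs_nonneg _) (by norm_num)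
      have hD := abs_add_le ((Real.exp (S z) - Real.exp (S w)) * hhlD z v)
        (Real.exp (S w) * (hhlD z v - hhlD w v))
      have hE : (4 * K1 * (4 + 2 * C0) + 8 + 4 * C0) * ‖v‖ * ‖z - w‖ ≤
          (4 * K1 * (4 + 2 * C0) + 8 + 4 * C0) * ‖v‖ * (M * ‖z - w‖ ^ α) :=
        mul_le_mul_of_nonneg_left hdα (by positivity)
      have hF : 0 ≤ 4 * (2 * (4 + 2 * C0)) * (M * ‖z - w‖ ^ α) * ‖v‖ := by positivity
      have hG : C * ‖z - w‖ ^ α * ‖v‖ = 4 * (2 * (4 + 2 * C0)) * (M * ‖z - w‖ ^ α) * ‖v‖ +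
          (4 * K1 * (4 + 2 * C0) + 8 + 4 * C0) * ‖v‖ * (M * ‖z - w‖ ^ α) +
            8 * K2 * (M * ‖z - w‖ ^ α) * ‖v‖ := by
        rw [hCdef]
        ring
      rw [hG]
      linarith
  refine ⟨C, ?_⟩
  intro z w hz hw
  rcases le_total ‖w‖ ‖z‖ with h | h
  · exact key z w hz h
  · rw [norm_sub_rev, norm_sub_rev z w]
    exact key w z hw h

end Pool.CBD
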